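import Pool.Agent.H97.HV.Targets
import Pool.Agent.H45.NF.CL

/-!
# Row SUB of the board `hov_modules` (MP_e37c09_lc): the number of the subsets
-/

set_option autoImplicit false

open Ordinal Cardinal Order Set
open scoped ZFSet

universe u

namespace Pool.Agent.H31.HV

open _root_.HD HD.PRK HD.HV

theorem od_prod {x y : ZFSet.{u}} (hx : OD x) (hy : OD y) : OD (ZFSet.prod x y) := by
  refine OD.of_dz ?_
  refine DZ.od (R := fun a v => v 0 = ZFSet.prod a y) hx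
    (DZ.od (R := fun b v => v 1 = ZFSet.prod (v 0) b) hy ?_)
  exact (loc_prod 2 1 0).dz

theorem odp_self (p : ZFSet.{u}) : NF.ODp p p := by
  refine Pool.Agent.H45.NF.ODp.of_dz (Q := fun v => v 0 = v 1) (DZ.eq 0 1) fun y => ?_
  show y = p ↔ y = p
  exact Iff.rfl

/-- the number of the elements of a small set -/
theorem sz_lt {K : Cardinal.{u}} {Z : ZFSet.{u}} (h : ∃ ν < K, NF.Sz ν Z) :
    #{x : ZFSet.{u} | x ∈ Z} < Cardinal.lift.{u + 1} K := by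
  obtain ⟨ν, hν, hS⟩ := h
  have h1 : #{x : ZFSet.{u} // x ∈ Z} ≤ Cardinal.lift.{u + 1} ν :=
    Pool.Agent.H45.NF.sz_iff.1 hS
  exact lt_of_le_of_lt h1 (Cardinal.lift_lt.2 hν)

/-- the number of the elements of a small set of ordinals -/
theorem few_lt {K : Cardinal.{u}} {X : Set Ordinal.{u}} (h : Few K.ord X) :
    #X < Cardinal.lift.{u + 1} K := by
  obtain ⟨τ, hτ, e, he⟩ := h
  have h1 : X ⊆ e '' Iio τ := by
    intro x hx
    obtain ⟨a, ha, hax⟩ := he x hx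
    exact ⟨a, ha, hax⟩
  refine lt_of_le_of_lt (Cardinal.mk_le_mk_of_subset h1) (lt_of_le_of_lt Cardinal.mk_image_le ?_)
  rw [Cardinal.mk_Iio_ordinal]
  exact Cardinal.lift_lt.2 (Cardinal.lt_ord.1 hτ)

/-- the product of two small sets -/
theorem prod_sz {K : Cardinal.{u}} (hK : ℵ₀ ≤ K) {Y Z : ZFSet.{u}} (hY : ∃ ν < K, NF.Sz ν Y)
    (hZ : ∃ ν < K, NF.Sz ν Z) : ∃ ν < K, NF.Sz ν (ZFSet.prod Y Z) := by
  obtain ⟨ν, hν, hS⟩ := hY
  obtain ⟨ρ, hρ, hR⟩ := hZ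
  refine ⟨ν * ρ, Cardinal.mul_lt_of_lt hK hν hρ, ?_⟩
  rw [Pool.Agent.H45.NF.sz_iff] at hS hR ⊢
  rw [Cardinal.lift_mul]
  refine le_trans ?_ (mul_le_mul' hS hR)
  rw [Cardinal.mul_def]
  refine Cardinal.mk_le_of_surjective (f := fun p : {x : ZFSet.{u} // x ∈ Y} ×
    {x : ZFSet.{u} // x ∈ Z} => (⟨ZFSet.pair p.1.1 p.2.1,
      ZFSet.pair_mem_prod.2 ⟨p.1.2, p.2.2⟩⟩ : {x : ZFSet.{u} // x ∈ ZFSet.prod Y Z})) ?_
  rintro ⟨x, hx⟩
  obtain ⟨a, ha, b, hb, he⟩ := ZFSet.mem_prod.1 hx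
  exact ⟨(⟨a, ha⟩, ⟨b, hb⟩), Subtype.ext he.symm⟩

theorem pf_SUB (h0 : T_PVA.{u}) (h1 : T_UNI.{u}) : T_SUB.{u} := by
  intro en hen K hK hK0 γ hF hγ hFod Q hQ hQP hQs
  have hKle : ℵ₀ ≤ K := hK0.le
  have hLK : (Cardinal.lift.{u + 1} K).IsRegular := hK.lift
  have hLle : ℵ₀ ≤ Cardinal.lift.{u + 1} K := hLK.aleph0_le
  -- the pieces
  set T : Iio γ → Set ZFSet.{u} := fun l =>
    (fun p : ZFSet.{u} × Ordinal.{u} => ZFSet.sep (fun z => ZFSet.pair p.1 z ∈ en p.2) Q) ''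
      ({a : ZFSet.{u} | a ∈ V_ l.1} ×ˢ Lst en (ZFSet.prod (V_ l.1) Q)) with hT
  have hTc : ∀ l, #(T l) < Cardinal.lift.{u + 1} K := by
    intro l
    have hV : ∃ ν < K, NF.Sz ν (V_ l.1) := hF.few l.1 l.2
    have hP : ∀ s ∈ ZFSet.prod (V_ l.1) Q, PV γ s := by
      intro s hs
      obtain ⟨a, ha, b, hb, rfl⟩ := ZFSet.mem_prod.1 hs
      have ha' : a ∈ V_ γ := by
        rw [ZFSet.mem_vonNeumann] at ha ⊢
        exact ha.trans l.2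
      exact h0.2.2.1 γ hF.lim a b _ ⟨a, ha', odp_self a⟩ (hQP b hb) (odp_self _)
    have hfew : Few K.ord (Lst en (ZFSet.prod (V_ l.1) Q)) :=
      hFod _ (od_prod (HD.NF.od_V l.1) hQ) hP (prod_sz hKle hV hQs)
    refine lt_of_le_of_lt Cardinal.mk_image_le ?_
    rw [Cardinal.mk_setProd]
    exact Cardinal.mul_lt_of_lt hLle (sz_lt hV) (few_lt hfew)
  have hU : #(⋃ l, T l) < Cardinal.lift.{u + 1} K := by
    refine (Cardinal.card_iUnion_lt_iff_forall_of_isRegular hLK ?_).2 hTc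
    rw [Cardinal.mk_Iio_ordinal]
    exact Cardinal.lift_lt.2 (Cardinal.lt_ord.1 hγ)
  obtain ⟨ν, hν, hνe⟩ := Cardinal.lt_lift_iff.1 hU
  refine ⟨ν, hν, ?_⟩
  have hsz : NF.Sz ν (ZFSet.sep (fun x => x ∈ ⋃ l, T l) (ZFSet.powerset Q)) := by
    rw [Pool.Agent.H45.NF.sz_iff, hνe]
    refine Cardinal.mk_le_of_injective (f := fun x => (⟨x.1, (ZFSet.mem_sep.1 x.2).2⟩ :
      {x : ZFSet.{u} // x ∈ ⋃ l, T l})) fun x y hxy => ?_
    exact Subtype.ext (congrArg (fun z : {x : ZFSet.{u} // x ∈ ⋃ l, T l} => z.1) hxy)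
  obtain ⟨e, he⟩ := hsz
  refine ⟨e, fun x hxQ hx => ?_⟩
  refine he x (ZFSet.mem_sep.2 ⟨ZFSet.mem_powerset.2 hxQ, ?_⟩)
  obtain ⟨a, ha, hax⟩ := hx
  obtain ⟨l, hl, hal⟩ : ∃ l < γ, a ∈ V_ l := by
    rw [ZFSet.mem_vonNeumann] at ha
    refine ⟨succ a.rank, hF.lim.succ_lt ha, ?_⟩
    rw [ZFSet.mem_vonNeumann]
    exact lt_succ _
  obtain ⟨R, hR1, hR2, hR3⟩ := h1.1 l Q a x hQ hal hax hxQ
  -- the least code
  have hne : {c : Ordinal.{u} | en c = R}.Nonempty := (hen.od R).1 hR1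
  set c := sInf {c : Ordinal.{u} | en c = R} with hc
  have hcR : en c = R := csInf_mem hne
  refine Set.mem_iUnion.2 ⟨⟨l, hl⟩, (a, c), ⟨hal, ?_, ?_⟩, ?_⟩
  · show en c ⊆ ZFSet.prod (V_ l) Q
    rw [hcR]
    exact hR2
  · intro c' hc' he'
    rw [hcR] at he'
    exact absurd hc' (not_lt.2 (csInf_le' (show c' ∈ {c : Ordinal.{u} | en c = R} from he')))
  · show ZFSet.sep (fun z => ZFSet.pair a z ∈ en c) Q = x
    ext z
    rw [ZFSet.mem_sep, hcR, hR3]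
    exact ⟨fun h => h.2, fun h => ⟨hxQ h, h⟩⟩

end Pool.Agent.H31.HV
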